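import Pool.Agent.H512.DRB.Basic
import Pool.Graph.R_pool_sql_team_seeded_ab47071d.Results.MP_12eca1_ag.MixedTateOverQ
import Pool.Graph.R_pool_sql_team_seeded_ab47071d.Results.MP_ae0f86_nt.MixedTateNumberFields

/-!
# The de Rham–Betti form of the period conjecture for mixed Tate motives: unconditional cases with odd zeta values

The objects are those of `Pool.Agent.TH426.MT.Gen` (library): graded vector spaces over `k` with operators `σ_l`,
one for each generator `l` of the Lie algebra of the unipotent part of the Tannaka group of the category of mixed Tate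
motives, `σ_l` changing the degree by the degree of `l`, with the comparison matrix
`∑_w u_w σ_w (2πi)^degree` between the Betti and the de Rham side; `u` is an arbitrary family of periods of the words
`w` with prescribed values on the words with one letter.

For `MT(ℚ)` the generators are the prime numbers (degree `1`, period `log p`) and the odd numbers `m = 2n + 3`
(degree `m`, period `ζ(m)`). For the mixed Tate motives over a number field `F` (or over the field of all algebraic
numbers) we consider the generators of degree `1`, which correspond to a basis of `F^× ⊗ ℚ` and have logarithms as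
periods, and the generators of odd degree `m ≥ 3` which correspond to the image of `K_{2m-1}(ℚ) ⊗ ℚ`, with the
period `ζ(m)`.

For an imaginary quadratic field `F` the group `K_{2m-1}(F) ⊗ ℚ`, `m ≥ 2`, has dimension one. For odd `m` it comes from
`ℚ`, and the period is `ζ(m)`. For even `m` the conjugation of `F` acts on it as `-1`, so that the period, which is
determined up to rational multiples of the real number `(2πi)^m`, can be taken purely imaginary (for instance `i β(m)`,
`β(m) = ∑ (-1)^j / (2j+1)^m`, for `F = ℚ(i)`); it is not `0` by the theorem of Borel. As `(2πi)^m` is real for even `m`, there is no linear relation over a real field in these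
degrees, and only the odd zeta values remain.
-/

set_option autoImplicit false

namespace Pool.Agent.Results.MP_ae0f86_nt.MixedTateUnconditional

open Pool.Agent.TH426.MT
open Pool.Agent.Results.MP_12eca1_ag.MixedTateOverQ (oddZeta Gens dg)

/-- The degrees of the generators: `1` for those in `A`, and `2n + 3` for `n : ℕ`. -/
abbrev dgA (A : Type) : A ⊕ ℕ → ℕ := Sum.elim (fun _ => 1) (fun n => 2 * n + 3)

theorem indep_all {k : IntermediateField ℚ ℂ} [FiniteDimensional ℚ k] (hk : ∀ z ∈ k, z.re = 0 → z = 0)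
    {A : Type} {α lam : A → ℂ} (hα : ∀ i, IsAlgebraic ℚ (α i)) (hexp : ∀ i, Complex.exp (lam i) = α i)
    (hmul : MulIndep α) {u : List (A ⊕ ℕ) → ℂ} (h1 : ∀ i, u [Sum.inl i] = lam i)
    (h2 : ∀ n, u [Sum.inr n] = oddZeta n) (P : A ⊕ ℕ → Prop)
    (hP : ∀ n, P (Sum.inr n) → (oddZeta n : ℂ) ∉ k) (t : ℕ) (ht : 1 ≤ t) :
    Indep k (dgA A) u P t := by
  have halg : ∀ x : k, IsAlgebraic ℚ (algebraMap k ℂ x) := fun x =>
    (Algebra.IsAlgebraic.isAlgebraic (R := ℚ) x).algebraMap
  rcases Nat.eq_or_lt_of_le ht with rfl | h'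
  · exact indep_one halg (fun j => by omega) hα hexp hmul h1 P
  · apply indep_of_unique halg ht
    · intro l l' _ _ hlt hlt'
      rcases l with i | j
      · simp only [dgA, Sum.elim_inl] at hlt
        omega
      · rcases l' with i' | j'
        · simp only [dgA, Sum.elim_inl] at hlt'
          omega
        · simp only [dgA, Sum.elim_inr] at hlt hlt'
          rw [show j = j' by omega]
    · intro l hl hlt a b hab
      rcases l with i | n
      · simp only [dgA, Sum.elim_inl] at hlt
        omega
      · simp only [dgA, Sum.elim_inr] at hlt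
        rw [h2, ← hlt] at hab
        exact Pool.Agent.H512.DRB.cond_of_not_mem hk (hP n hl) a b hab

theorem short {M : Obj Gens dg ℚ} (hM : ∀ i j, M.d i ≤ M.d j + 6) (n : ℕ) (hn : M.σ (Sum.inr n) ≠ 0) :
    Irrational (oddZeta n) := by
  obtain ⟨i, j, hij⟩ : ∃ i j, M.σ (Sum.inr n) i j ≠ 0 := by
    by_contra hcon
    push Not at hcon
    exact hn (Matrix.ext hcon)
  have h1 := M.raises (Sum.inr n) i j hij
  have h2 := hM i j
  have h3 : n = 0 ∨ n = 1 := by
    simp only [dg, Sum.elim_inr] at h1
    push_cast at h1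
    omega
  rcases h3 with rfl | rfl
  · exact Pool.Agent.H512.DRB.irr_three'
  · exact Pool.Agent.H512.DRB.irr_five

/-- The degrees of the generators for an imaginary quadratic field: `1` for those in `A`, and `n + 2` for `n : ℕ`. -/
abbrev dgI (A : Type) : A ⊕ ℕ → ℕ := Sum.elim (fun _ => 1) (fun n => n + 2)

/-- The zeta value `ζ(m) = ∑ 1 / (j + 1) ^ m`. -/
noncomputable def zet (m : ℕ) : ℝ := ∑' j : ℕ, 1 / ((j : ℝ) + 1) ^ m

/-- The periods of the generators for an imaginary quadratic field: logarithms `lam i` in degree one, `ζ(m)` in the odd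
degrees `m ≥ 3`, a nonzero purely imaginary number in each even degree `m ≥ 2`. -/
structure Periods {A : Type} (lam : A → ℂ) (u : List (A ⊕ ℕ) → ℂ) : Prop where
  empty : u [] = 1
  log : ∀ i, u [Sum.inl i] = lam i
  odd : ∀ n, Odd n → u [Sum.inr n] = zet (n + 2)
  even : ∀ n, Even n → (u [Sum.inr n]).re = 0 ∧ u [Sum.inr n] ≠ 0

theorem tau_even {t : ℕ} (ht : Even t) : (tau ^ t).im = 0 := by
  obtain ⟨m, rfl⟩ := ht
  have h1 : tau ^ (m + m) = (((-(2 * Real.pi) ^ 2) ^ m : ℝ) : ℂ) := by
    rw [← two_mul, pow_mul]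
    unfold tau
    rw [mul_pow, Complex.I_sq]
    push_cast
    ring
  rw [h1]
  exact Complex.ofReal_im _

theorem tau_odd {t : ℕ} (ht : Odd t) : (tau ^ t).re = 0 := by
  obtain ⟨m, rfl⟩ := ht
  have h1 : tau ^ (2 * m + 1) = (((-(2 * Real.pi) ^ 2) ^ m * (2 * Real.pi) : ℝ) : ℂ) * Complex.I := by
    rw [pow_succ, pow_mul]
    unfold tau
    rw [mul_pow, Complex.I_sq]
    push_cast
    ring
  rw [h1, Complex.re_ofReal_mul, Complex.I_re, mul_zero]

theorem indep_iq {k : Type} [Field k] [Algebra k ℂ] (halg : ∀ x : k, IsAlgebraic ℚ (algebraMap k ℂ x))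
    (hreal : ∀ x : k, (algebraMap k ℂ x).im = 0) {A : Type} {α lam : A → ℂ} (hα : ∀ i, IsAlgebraic ℚ (α i))
    (hexp : ∀ i, Complex.exp (lam i) = α i) (hmul : MulIndep α) {u : List (A ⊕ ℕ) → ℂ} (hu : Periods lam u)
    (P : A ⊕ ℕ → Prop) (hP : ∀ n, Odd n → P (Sum.inr n) → ∀ x : k, (zet (n + 2) : ℂ) ≠ algebraMap k ℂ x) (t : ℕ) (ht : 1 ≤ t) :
    Indep k (dgI A) u P t := by
  rcases Nat.eq_or_lt_of_le ht with rfl | h'
  · exact indep_one halg (fun j => by omega) hα hexp hmul hu.log P
  · apply indep_of_unique halg ht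
    · intro l l' _ _ hlt hlt'
      rcases l with i | j
      · simp only [dgI, Sum.elim_inl] at hlt
        omega
      · rcases l' with i' | j'
        · simp only [dgI, Sum.elim_inl] at hlt'
          omega
        · simp only [dgI, Sum.elim_inr] at hlt hlt'
          rw [show j = j' by omega]
    · intro l hl hlt x y hxy
      rcases l with i | n
      · simp only [dgI, Sum.elim_inl] at hlt
        omega
      · simp only [dgI, Sum.elim_inr] at hlt
        subst hlt
        have hx : ((algebraMap k ℂ x)).im = 0 := hreal x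
        have hy : ((algebraMap k ℂ y)).im = 0 := hreal y
        rcases Nat.even_or_odd n with hn | hn
        · obtain ⟨h1, h2⟩ := hu.even n hn
          apply h2
          apply Complex.ext h1
          rw [hxy, Complex.add_im, Complex.mul_im, hx, hy, tau_even (by
            rw [Nat.even_add]
            exact ⟨fun _ => even_two, fun _ => hn⟩)]
          simp
        · apply hP n hn hl x
          have h1 := congrArg Complex.re hxy
          rw [hu.odd n hn, Complex.ofReal_re, Complex.add_re, Complex.mul_re, hy, tau_odd (by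
            rw [Nat.odd_add]
            exact ⟨fun _ => even_two, fun _ => hn⟩)] at h1
          apply Complex.ext
          · rw [Complex.ofReal_re, h1]
            ring
          · rw [Complex.ofReal_im, hx]

theorem short_iq {A : Type} {M : Obj (A ⊕ ℕ) (dgI A) ℚ} (hM : ∀ i j, M.d i ≤ M.d j + 6) (n : ℕ) (hodd : Odd n)
    (hn : M.σ (Sum.inr n) ≠ 0) : Irrational (zet (n + 2)) := by
  obtain ⟨i, j, hij⟩ : ∃ i j, M.σ (Sum.inr n) i j ≠ 0 := by
    by_contra hcon
    push Not at hcon
    exact hn (Matrix.ext hcon)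
  have h1 := M.raises (Sum.inr n) i j hij
  have h2 := hM i j
  simp only [dgI, Sum.elim_inr] at h1
  push_cast at h1
  obtain ⟨m, rfl⟩ := hodd
  have h3 : m = 0 ∨ m = 1 := by omega
  rcases h3 with rfl | rfl
  · exact Pool.Agent.H512.DRB.irr_three'
  · exact Pool.Agent.H512.DRB.irr_five

/-- **Unconditional cases of the de Rham–Betti form of the period conjecture for mixed Tate motives.**

(1), (2) `MT(ℚ)`, `u_p = log p`, `u_m = ζ(m)`: for all mixed Tate motives over `ℚ` with degrees in an interval of
length `6` (weights in an interval of length `12`) every subobject and every morphism of the de Rham–Betti structures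
is motivic. (3) There is a set `I` of odd integers `m = 2n + 3` (described by the numbers `n`) with `3, 5 ∈ I`, which
contains one of `7, 9, 11, 13` and for every odd `s ≥ 3` an odd `m` with `s < m < 3.6 s`, and which contains at least
`K` elements of `(b, s]` if `2^66 (b+1) K log (K+1) ≤ s` and `2^132 (b+1) K³ log (K+1) ≤ s²`, such that the same is
true for all mixed Tate motives over `ℚ` on which of the generators of degree `m ≥ 3` only those with `m ∈ I` act
nontrivially, and any generators of degree `1`.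

(4) Let `k ⊆ ℂ` be a number field of odd degree, or a number field without nonzero purely imaginary elements (for
example a real one). There is a set `I` of odd integers `m ≥ 3`, which contains at least `K` elements of `(b, s]` if
`2^(264 [k:ℚ]) (b+1)² K³ log (K+1) ≤ s²`, with the following property. Let `α_i`, `i ∈ A`, be any multiplicatively
independent algebraic numbers (for instance a basis of `F^× ⊗ ℚ` for a number field `F`, or of all algebraic
numbers), with any logarithms `λ_i`. Then every subobject and every morphism of the de Rham–Betti structures with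
coefficients in `k` is motivic, for all objects on which only generators of degree `1` (with the periods `λ_i`) and
the generators with the periods `ζ(m)`, `m ∈ I`, act nontrivially.

(5) Imaginary quadratic fields `F`: there is one generator in each degree `≥ 2`, with the period `ζ(m)` in the odd
degrees and a purely imaginary period in the even degrees, and the generators of degree `1` correspond to a basis
`α_i` of `F^× ⊗ ℚ` (`Periods`). For `k = ℚ` the de Rham–Betti form is true, for subobjects and for morphisms, for all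
objects with degrees in an interval of length `6`. For every real field `k` of algebraic numbers it is true with
coefficients in `k` for all objects on which no generator of an odd degree `m ≥ 3` with `ζ(m) ∈ k` acts; and it is
true for all objects, for subobjects or for morphisms, if and only if no `ζ(m)`, `m ≥ 3` odd, is in `k`. -/
theorem result :
    (∀ (u : List Gens → ℂ), u [] = 1 → (∀ p : Nat.Primes, u [Sum.inl p] = Real.log (p : ℕ)) →
      (∀ n : ℕ, u [Sum.inr n] = oddZeta n) →
      (∀ M : Obj Gens dg ℚ, (∀ i j, M.d i ≤ M.d j + 6) → M.Saturated u) ∧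
      (∀ M N : Obj Gens dg ℚ, (∀ i j, M.d i ≤ M.d j + 6) → (∀ i j, N.d i ≤ N.d j + 6) → Full M N u) ∧
      (∃ I : Set ℕ, 0 ∈ I ∧ 1 ∈ I ∧ (2 ∈ I ∨ 3 ∈ I ∨ 4 ∈ I ∨ 5 ∈ I) ∧
        (∀ n, ∃ m ∈ I, n < m ∧ 5 * (2 * m + 3) < 18 * (2 * n + 3)) ∧
        (∀ b K s : ℕ, 1 ≤ K → (2 : ℝ) ^ 66 * ((b : ℝ) + 1) * K * Real.log (K + 1) ≤ s →
          (2 : ℝ) ^ 132 * ((b : ℝ) + 1) * (K : ℝ) ^ 3 * Real.log (K + 1) ≤ (s : ℝ) ^ 2 →
          K ≤ Set.ncard {n : ℕ | b < 2 * n + 3 ∧ 2 * n + 3 ≤ s ∧ n ∈ I}) ∧
        (∀ M : Obj Gens dg ℚ, (∀ n ∉ I, M.σ (Sum.inr n) = 0) → M.Saturated u) ∧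
        (∀ M N : Obj Gens dg ℚ, (∀ n ∉ I, M.σ (Sum.inr n) = 0 ∧ N.σ (Sum.inr n) = 0) → Full M N u))) ∧
    (∀ (k : IntermediateField ℚ ℂ) [FiniteDimensional ℚ k],
      (Odd (Module.finrank ℚ k) ∨ ∀ z ∈ k, z.re = 0 → z = 0) →
      ∃ I : Set ℕ, (∀ b K s : ℕ, 1 ≤ K →
        (2 : ℝ) ^ (264 * Module.finrank ℚ k) * ((b : ℝ) + 1) ^ 2 * (K : ℝ) ^ 3 * Real.log (K + 1) ≤ (s : ℝ) ^ 2 →
        K ≤ Set.ncard {n : ℕ | b < 2 * n + 3 ∧ 2 * n + 3 ≤ s ∧ n ∈ I}) ∧
      ∀ (A : Type) (α lam : A → ℂ), (∀ i, IsAlgebraic ℚ (α i)) → (∀ i, Complex.exp (lam i) = α i) →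
        MulIndep α → ∀ u : List (A ⊕ ℕ) → ℂ, u [] = 1 → (∀ i, u [Sum.inl i] = lam i) →
        (∀ n : ℕ, u [Sum.inr n] = oddZeta n) →
        (∀ M : Obj (A ⊕ ℕ) (dgA A) k, (∀ n ∉ I, M.σ (Sum.inr n) = 0) → M.Saturated u) ∧
        (∀ M N : Obj (A ⊕ ℕ) (dgA A) k, (∀ n ∉ I, M.σ (Sum.inr n) = 0 ∧ N.σ (Sum.inr n) = 0) →
          Full M N u)) ∧
    (∀ (A : Type) (α lam : A → ℂ), (∀ i, IsAlgebraic ℚ (α i)) → (∀ i, Complex.exp (lam i) = α i) →
      MulIndep α → ∀ u : List (A ⊕ ℕ) → ℂ, Periods lam u →
      (∀ M : Obj (A ⊕ ℕ) (dgI A) ℚ, (∀ i j, M.d i ≤ M.d j + 6) → M.Saturated u) ∧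
      (∀ M N : Obj (A ⊕ ℕ) (dgI A) ℚ, (∀ i j, M.d i ≤ M.d j + 6) → (∀ i j, N.d i ≤ N.d j + 6) → Full M N u) ∧
      ∀ (k : Type) [Field k] [Algebra k ℂ], (∀ x : k, IsAlgebraic ℚ (algebraMap k ℂ x)) →
        (∀ x : k, (algebraMap k ℂ x).im = 0) →
        (∀ M : Obj (A ⊕ ℕ) (dgI A) k,
          (∀ n, Odd n → (∃ x : k, (zet (n + 2) : ℂ) = algebraMap k ℂ x) → M.σ (Sum.inr n) = 0) → M.Saturated u) ∧
        (∀ M N : Obj (A ⊕ ℕ) (dgI A) k,
          (∀ n, Odd n → (∃ x : k, (zet (n + 2) : ℂ) = algebraMap k ℂ x) →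
            M.σ (Sum.inr n) = 0 ∧ N.σ (Sum.inr n) = 0) → Full M N u) ∧
        List.TFAE [∀ M : Obj (A ⊕ ℕ) (dgI A) k, M.Saturated u, ∀ M N : Obj (A ⊕ ℕ) (dgI A) k, Full M N u,
          ∀ m, Odd m → 3 ≤ m → ∀ x : k, (zet m : ℂ) ≠ algebraMap k ℂ x]) := by
  have hpos : ∀ (A : Type) (l : A ⊕ ℕ), 0 < dgA A l := by
    intro A l
    rcases l with i | j
    · exact one_pos
    · show 0 < 2 * j + 3
      omega
  have hpos' : ∀ (A : Type) (l : A ⊕ ℕ), 0 < dgI A l := by
    intro A l
    rcases l with i | j
    · exact one_pos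
    · show 0 < j + 2
      omega
  refine ⟨fun u h0 h1 h2 => ?_, fun k _ hk => ?_, fun A α lam hα hexp hmul u hu => ?_⟩
  · obtain ⟨-, -, hS, hF, -⟩ := MP_12eca1_ag.MixedTateOverQ.result u h0 h1 h2
    refine ⟨fun M hM => hS M fun n hn => short hM n hn, fun M N hM hN => hF M N fun n hn => ?_,
      {n | Irrational (oddZeta n)}, Pool.Agent.H512.DRB.irr_three', Pool.Agent.H512.DRB.irr_five,
      Pool.Agent.Results.MP_c2395a_nt.OddZeta7To13.result, Pool.Agent.H512.DRB.windows,
      Pool.Agent.H512.DRB.many_irr, fun M hM => hS M fun n hn => ?_, fun M N hMN => hF M N fun n hn => ?_⟩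
    · rcases hn with hn | hn
      · exact short hM n hn
      · exact short hN n hn
    · by_contra hcon
      exact hn (hM n hcon)
    · by_contra hcon
      obtain ⟨h2, h3⟩ := hMN n hcon
      rcases hn with hn | hn
      · exact hn h2
      · exact hn h3
  · have hk' : ∀ z ∈ k, z.re = 0 → z = 0 := by
      rcases hk with hk | hk
      · exact Pool.Agent.H512.DRB.no_imag_of_odd hk
      · exact hk
    refine ⟨{n | (oddZeta n : ℂ) ∉ k}, fun b K s hK hs => Pool.Agent.H512.DRB.many_outside b K s _ hK hs k le_rfl,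
      fun A α lam hα hexp hmul u h0 h1 h2 => ⟨fun M hM => ?_, fun M N hMN => ?_⟩⟩
    · exact sat_of (hpos A) h0 M fun t ht => indep_all hk' hα hexp hmul h1 h2 _ (fun n hn => by
        by_contra hcon
        exact hn (hM n (fun h => h hcon))) t ht
    · exact full_of (hpos A) h0 M N fun t ht => indep_all hk' hα hexp hmul h1 h2 _ (fun n hn => by
        by_contra hcon
        obtain ⟨h3, h4⟩ := hMN n (fun h => h hcon)
        rcases hn with hn | hn
        · exact hn h3
        · exact hn h4) t ht
  · have halgQ : ∀ x : ℚ, IsAlgebraic ℚ (algebraMap ℚ ℂ x) := fun x => isAlgebraic_algebraMap x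
    have hrealQ : ∀ x : ℚ, (algebraMap ℚ ℂ x).im = 0 := fun x => by simp
    have hirr : ∀ n, Irrational (zet (n + 2)) → ∀ x : ℚ, (zet (n + 2) : ℂ) ≠ algebraMap ℚ ℂ x := by
      intro n h x hx
      apply h
      refine ⟨x, ?_⟩
      have := congrArg Complex.re hx
      rw [Complex.ofReal_re] at this
      rw [this]
      simp
    refine ⟨fun M hM => ?_, fun M N hM hN => ?_, fun k _ _ halg hreal => ⟨fun M hM => ?_, fun M N hMN => ?_, ?_⟩⟩
    · exact sat_of (hpos' A) hu.empty M fun t ht => indep_iq halgQ hrealQ hα hexp hmul hu _ (fun n hn hP =>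
        hirr n (short_iq hM n hn hP)) t ht
    · exact full_of (hpos' A) hu.empty M N fun t ht => indep_iq halgQ hrealQ hα hexp hmul hu _ (fun n hn hP =>
        hirr n (by
          rcases hP with hP | hP
          · exact short_iq hM n hn hP
          · exact short_iq hN n hn hP)) t ht
    · exact sat_of (hpos' A) hu.empty M fun t ht => indep_iq halg hreal hα hexp hmul hu _ (fun n hn hP x hx =>
        hP (hM n hn ⟨x, hx⟩)) t ht
    · exact full_of (hpos' A) hu.empty M N fun t ht => indep_iq halg hreal hα hexp hmul hu _ (fun n hn hP x hx => by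
        obtain ⟨h3, h4⟩ := hMN n hn ⟨x, hx⟩
        rcases hP with hP | hP
        · exact hP h3
        · exact hP h4) t ht
    · have h7 := (MP_ae0f86_nt.MixedTateNumberFields.result (I := A) (J := ℕ) (fun n => n + 2) (fun j => by omega)
        α lam hα hexp hmul k halg u hu.empty hu.log).2.2.2.2.2.2
      have h02 : (∀ M : Obj (A ⊕ ℕ) (dgI A) k, M.Saturated u) ↔
          (∀ t, 2 ≤ t → ∀ s : Finset ℕ, (∀ j ∈ s, j + 2 = t) → ∀ (c : ℕ → k) (a b : k),
            algebraMap k ℂ a + algebraMap k ℂ b * (2 * Real.pi * Complex.I) ^ t +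
              ∑ j ∈ s, algebraMap k ℂ (c j) * u [Sum.inr j] = 0 →
            a = 0 ∧ b = 0 ∧ ∀ j ∈ s, c j = 0) := h7.out 0 2
      tfae_have 1 ↔ 2 := h7.out 0 1
      tfae_have 1 → 3 := by
        intro h m hm h3 x hx
        have h8 := h02.1 h m (by omega) {m - 2} (fun j hj => by
          rw [Finset.mem_singleton] at hj
          subst hj
          omega) (fun _ => 1) (-x) 0 (by
          rw [Finset.sum_singleton, hu.odd (m - 2) (by
            obtain ⟨l, hl⟩ := hm
            exact ⟨l - 1, by omega⟩), show m - 2 + 2 = m by omega, hx, map_neg, map_zero, map_one]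
          ring)
        exact one_ne_zero (h8.2.2 (m - 2) (Finset.mem_singleton_self _))
      tfae_have 3 → 1 := by
        intro h M
        exact sat_of (hpos' A) hu.empty M fun t ht => indep_iq halg hreal hα hexp hmul hu _ (fun n hn _ x =>
          h (n + 2) (by
            rw [Nat.odd_add]
            exact ⟨fun _ => even_two, fun _ => hn⟩) (by
            have := hn.pos
            omega) x) t ht
      tfae_finish

end Pool.Agent.Results.MP_ae0f86_nt.MixedTateUnconditional
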