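import Pool.Agent.H936.W.Om2
import Pool.Agent.H936.X.FinV

/-!
# 1-motives over products of abelian varieties near different special abelian varieties: the de Rham-Betti torsor is motivic

Let `A_{1,0}, …, A_{N,0}` be **special** abelian varieties of dimension `g ≥ 2`: an abelian variety with period matrix `C` is
special (over a number field of degree at most `D`) if it has an endomorphism which is not in `ℤ`, for example if it has complex
multiplication, or, more generally, if a subtorsor of `Iso (H^1_dR, H^1_B)` contains `C`, has a group which is defined over `ℚ`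
and is not stable under `Sp`; so it is special if the Mumford-Tate group is smaller than `GSp`. The `A_{j,0}` may be **different**,
they have polarisations with the same matrix `H`, and `C_j` is the period matrix of `A_{j,0}`. Let `X_j → B_j` be families of
polarised abelian varieties over `ℚ`, `B_j` open in the affine space of any dimension `m`, which have `A_{j,0}` as the fibre at
the origin; their period matrices are `P_j(x) = C_j Z_j(x)`, where `Z_j` is a matrix of G-functions in `m` variables. Let `A_j`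
be the fibre at `x_j = a_j / b_j`, `a_j ∈ ℤ^m`, `b_j ∈ ℕ`. We consider **all** 1-motives over number fields of bounded degree
whose abelian part is isogenous to a product of powers of the `A_j`, for **all** such families and points at the same time.

**The 1-motives.** Let `M = [ℤ^R → G]` be a 1-motive, where `G` is an extension of an abelian variety `A` by `𝔾ₘ^J`, given by
points `Q_j` (`j ∈ J`) of `A` over a number field with logarithms `q_j`, and points `P̃_r` of `G` (`r ∈ R`) over points `P_r` of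
`A` with logarithms `u_r`. Every 1-motive over a number field has this form over a finite extension. `A` is given by theta
functions (`AbVar`, `Pool.Agent.Y102.AVDefs`). The periods of `M` are the entries of `periodMatrix` with the rows

* `(λ_{ik} | η_{ik} | ∑_k (f_{jk} λ_{ik} - η_{ik} q_{jk}) | 0)` for a suitable lift to `G` of the cycle `i` of `A`;
* `(0 | 0 | 2πi δ_{jj'} | 0)` for the circles of the torus;
* `(u_{rk} | e_{rk} | L_{rj} | δ_{rr'})` for a path from `0` to `P̃_r` in `G`,

and the columns: the differentials of the first kind `dz_k`, of the second kind `d (∂_k log θ₀)`, of the third kind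
`d log (θ₀(z - q_j) / θ₀(z)) + ∑_k f_{jk} dz_k`, and the differentials of degree zero. The points can be arbitrary; if they
satisfy relations, the paths and the differentials are normalised in such a way that the vectors `(u_r, e_r)`, `(q_j, f_j)`
satisfy the same relations. If `M` is defined over the number field `K`, a basis over `K` of the de Rham realisation which
respects the weights is given by a matrix `b` of algebraic numbers (`IsBasis`), and `c = periodMatrix * b` is the period
matrix of `M` for this basis, a point of the torsor `Iso (M_dR, M_B)` over `K`. It is the point `ev` of the torsor `X(M)` of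
formal periods.

**The Lie algebra of the motivic Galois group.** The motivic Galois group `G(M)` of a 1-motive is its Mumford-Tate group
(Brylinski, André). Its Lie algebra consists of the block matrices `(X, z, 0; 0, μ, 0; Y, w, 0)` such that

* the transpose of `X` is in `μ / 2 + 𝔤 ⊗ ℂ`, where `𝔤` is the Lie algebra of the endomorphisms of `H_1(A, ℚ)` which annihilate
  all classes in `H^1(A) ^ {⊗ 2m} (m)` that are Hodge classes and de Rham-Betti classes (by the theorem of Deligne this is the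
  Lie algebra of the Hodge group);
* `z` consists of the columns `γ ↦ ω(Z_j, γ)` for the Riemann form `ω`, and `(Y, Z)` satisfies all relations
  `∑ E_r P_r + ∑ E'_j Q_j = 0`, `E_r, E'_j ∈ End A`;
* `∑ χ_{rj} w_{rj} = n μ` for all central `χ` with `∑ χ_{rj} ℓ_{rj} = 2πi n`, `n ∈ ℤ`. Here `ℓ` is the part of weight `-2` of the
  logarithm of the period matrix, and an integral matrix `χ` is central if `∑ χ_{rj} c_{rj} = 0` for all commutators `c`. For
  central `χ` the number `exp (∑ χ_{rj} ℓ_{rj})` is algebraic (the value of a section of a trivial line bundle at the point).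

This is `motivicLie` for the set of pairs `(χ, n)` as above.

**Theorem.** For all `g ≥ 2`, `m`, `N`, `q`, `D` there is `E` such that the following holds for all real `B ≥ 1` and all
`h, w, b₀` with `b₀ ≥ (2 B (h + w + 2))^E`, **all** `H` and **all** special `C_1, …, C_N`, **all** families `X_j` of degree at
most `q` and size at most `B` with big monodromy on the lines `ℚ a_j`, **all** numerators with `|a_j| ≤ h`, **all** denominators
`b_j` in `[b₀, b₀ + w]` which are equal or have distances larger than `2^(m+1) B (h + 2)`: for **all** number fields `K`,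
`[K : ℚ] ≤ D`, **all** 1-motives `M` over `K` whose abelian part `A` is isogenous over `K` to a product of the fibres `A_j`, with
arbitrary multiplicities (`IsProduct`; there is no bound for the dimension of `A` and for the ranks of `ℤ^R` and `𝔾ₘ^J`, the
points and the extensions are arbitrary), and all `K`-subtorsors `S` of `Iso (M_dR, M_B)` which contain `c` and whose group (the
matrices `x y⁻¹`, `x, y ∈ S`) is defined over `ℚ` (for example the smallest one, the de Rham-Betti torsor of `M` over `K`): `S` is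
stable under `exp W` for all `W` in the Lie algebra of the motivic Galois group of `M`. So `S` contains the torsor `X(M)` of motivic
periods of `M` over `ℚ̄`: the de Rham-Betti group of `M` has the dimension `dim G(M)` which the conjecture predicts for the
transcendence degree, and all de Rham-Betti classes of all motives over `K` in the tensor category generated by `M` are
motivic over `ℚ̄`. There are no exceptions, and nothing is assumed about the periods of the `A_{j,0}`.

**Comparison.** Until now theorems on 1-motives (in the library and in this run) needed special Hodge groups of the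
abelian part, or assumed the conjecture for the abelian part, or (my `OneMotivesOverFibres`) treated the fibres of one
family over a curve near the same central fibre. Here the fibres are near different special varieties, in
families over bases of any dimension, and the bound `E` is uniform in the families, in the central fibres and in the
points. `OneMotivesHyperelliptic` verifies assumptions of this kind for the explicit curves `y² = f(x) (x - c / b)`.
The pure part (tensors on products of the fibres, several objects, no extensions) is `NearDifferentSpecialVarieties`.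

**Proof.** (`Pool/Agent/H936/W`, `X`.) The projection of `S` to the pure part need not be closed, and the conjecture for the
pure part is known only for torsors over number fields of bounded degree. So we work with the subspace `V` of the pure parts of
those elements of the Lie algebra of `S` which respect the decomposition of the pure part into fibres (`W/Gr`). It is closed
under commutators, has a rational structure and is stable under conjugation by `K`-linear maps in the de Rham coordinates; its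
projections to the fibres have nondegenerate trace forms (theorem of Schneider and Lang in the form of Bost, positivity of the
polarisations). In the ultraproduct of a sequence of counterexamples there are derivations which move only the period matrix of
one fibre, in an arbitrary direction of `𝔰𝔭` (`H885.curveP`: linear independence of values of G-functions, uniform in the
families); the constants of the special central fibres normalise proper subalgebras `𝔩_j` of `𝔰𝔭`, and since `𝔰𝔭` is not the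
sum of such a normaliser and of a second one, `V` contains the symplectic algebras of all fibres (`X/Chain`, `X/UltV`, `X/FinV`).
The homotheties split the lifts, and then the theorem follows from the structure of the Lie algebra for 1-motives (`X306/AV`:
the theorem of Schneider and Lang, Lang's theorem on algebraic points, the theorem of Hermite and Lindemann).

Nothing is assumed about periods: `AbVar` is the description of an abelian variety over `ℚ̄` by theta functions
(`Pool/Agent/Y102/AVDefs.lean` explains why every abelian variety has it).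
-/

set_option autoImplicit false
set_option linter.unusedSectionVars false

open PowerSeries Filter
open scoped Matrix

open Matrix

noncomputable section

namespace Pool.Agent.Results.MP_ae0f86_nt.OneMotivesNearSpecial

open Pool.Agent.Y102 (AbVar riemannForm pd QBar)
open Pool.Agent.W516.DR Pool.Agent.H204R3.GP

/-! ### Families -/

section several
variable {n m N : ℕ}

/-- an integer polynomial in `m` variables as a power series with rational coefficients -/
def toQ (P : MvPolynomial (Fin m) ℤ) : MvPowerSeries (Fin m) ℚ :=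
  ((P.map (Int.castRingHom ℚ) : MvPolynomial (Fin m) ℚ) : MvPowerSeries (Fin m) ℚ)

/-- the partial derivative `∂f / ∂x_i` -/
def partialD (i : Fin m) (f : MvPowerSeries (Fin m) ℚ) : MvPowerSeries (Fin m) ℚ :=
  fun ν => ((ν i : ℚ) + 1) * MvPowerSeries.coeff (ν + Finsupp.single i 1) f

/-- `Z` is an invertible `n × n` matrix of G-functions in `m` variables with rational coefficients, `W = Z⁻¹`, which
solves the system `T ∂Z / ∂x_i = Z A_i`, `i = 1, …, m`. The degrees of `T` and `A_i` are at most `q`; the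
absolute values of their coefficients and the growth of the coefficients of `Z` and of the denominators of the
coefficients of `Z` and `W` are bounded by `B`. -/
structure Family (q : ℕ) (B : ℝ) (T : MvPolynomial (Fin m) ℤ) (A : Fin m → Fin n → Fin n → MvPolynomial (Fin m) ℤ)
    (Z W : Matrix (Fin n) (Fin n) (MvPowerSeries (Fin m) ℚ)) : Prop where
  /-- the degree of `T` -/
  degT : T.totalDegree ≤ q
  /-- the height of `T` -/
  sizeT : ∀ ν, |((T.coeff ν : ℤ) : ℝ)| ≤ B
  /-- the degrees of the `A_i` -/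
  degA : ∀ i a b, (A i a b).totalDegree ≤ q
  /-- the heights of the `A_i` -/
  sizeA : ∀ i a b ν, |(((A i a b).coeff ν : ℤ) : ℝ)| ≤ B
  /-- the differential equations -/
  ode : ∀ i a b, toQ T * partialD i (Z a b) = ∑ l, Z a l * toQ (A i l b)
  /-- `W` is the inverse of `Z` -/
  inv : W * Z = 1
  /-- the growth of the coefficients -/
  size : ∀ a b (ν : Fin m →₀ ℕ), |((MvPowerSeries.coeff ν (Z a b) : ℚ) : ℝ)| ≤ B ^ (∑ i, ν i + 1)
  /-- the growth of the common denominators of the coefficients -/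
  den : ∀ k : ℕ, ∃ d : ℕ, 0 < d ∧ (d : ℝ) ≤ B ^ (k + 1) ∧ ∀ a b (ν : Fin m →₀ ℕ), ∑ i, ν i ≤ k →
    (∃ z : ℤ, (d : ℚ) * MvPowerSeries.coeff ν (Z a b) = z) ∧ ∃ z : ℤ, (d : ℚ) * MvPowerSeries.coeff ν (W a b) = z

/-- the power series `f(x a)` in the variable `x`, the restriction of `f` to the line through `0` with direction `a` -/
def restrict (a : Fin m → ℤ) (f : MvPowerSeries (Fin m) ℚ) : PowerSeries ℚ :=
  PowerSeries.mk fun k => ∑ ν ∈ (Finset.univ : Finset (Fin m)).finsuppAntidiag k,
    MvPowerSeries.coeff ν f * ∏ i, (a i : ℚ) ^ ν i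

/-- the value `Z(a / b)`, that is, the value of the restriction of `Z` to the line at `x = 1 / b` -/
def value (Z : Matrix (Fin n) (Fin n) (MvPowerSeries (Fin m) ℚ)) (a : Fin m → ℤ) (b : ℕ) :
    Matrix (Fin n) (Fin n) ℂ :=
  Matrix.of fun i j => ((∑' k : ℕ, ((coeff k (restrict a (Z i j)) : ℚ) : ℝ) * (1 / (b : ℝ)) ^ k : ℝ) : ℂ)

/-- the restriction of `Z` to the line with direction `a`, over `ℂ` -/
def onLine (a : Fin m → ℤ) (Z : Matrix (Fin n) (Fin n) (MvPowerSeries (Fin m) ℚ)) :
    Matrix (Fin n) (Fin n) (PowerSeries ℂ) :=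
  Z.map fun f => PowerSeries.map (algebraMap ℚ ℂ) (restrict a f)

/-- `(X_1, …, X_N)` is an infinitesimal symmetry of the matrices `Y_1, …, Y_N` of power series: for all polynomial relations
`R(x, Y_1(x), …, Y_N(x)) = 0` over `ℂ[x]` the derivative of `R(x, (1 + ε X_1) Y_1(x), …, (1 + ε X_N) Y_N(x))` at `ε = 0` is
zero. -/
def Symmetry (Y : Fin N → Matrix (Fin n) (Fin n) (PowerSeries ℂ)) (X : Fin N → Matrix (Fin n) (Fin n) ℂ) : Prop :=
  ∀ R : MvPolynomial (Fin N × Fin n × Fin n) (Polynomial ℂ),
    MvPolynomial.aeval (fun σ => Y σ.1 σ.2.1 σ.2.2) R = 0 →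
    ∑ σ, MvPolynomial.aeval (fun σ => Y σ.1 σ.2.1 σ.2.2) (MvPolynomial.pderiv σ R) *
      ((X σ.1).map (PowerSeries.C (R := ℂ)) * Y σ.1) σ.2.1 σ.2.2 = 0

end several


/-- the distance of the denominators `b` and `c` is larger than `2^(m+1) B (h + 2)` -/
def Far (m : ℕ) (B : ℝ) (h b c : ℕ) : Prop := 2 ^ (m + 1) * B * ((h : ℝ) + 2) < |(b : ℝ) - c|

/-- the tuple `b` of denominators is in the window `[b₀, b₀ + w]`, and its members are equal or far from each other -/
def InWindow {N : ℕ} (m : ℕ) (B : ℝ) (h w b₀ : ℕ) (b : Fin N → ℕ) : Prop :=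
  (∀ j, b₀ ≤ b j ∧ b j ≤ b₀ + w) ∧ ∀ i j, b i = b j ∨ Far m B h (b i) (b j)

/-! ### Abelian varieties -/

/-- rational matrices as complex matrices -/
def toC {n : ℕ} (M : Matrix (Fin n) (Fin n) ℚ) : Matrix (Fin n) (Fin n) ℂ := M.map fun x : ℚ => (x : ℂ)

section abelian
variable {g : ℕ} (A : AbVar g)

/-- The matrix of the periods of `A`: the integrals over the basis of the lattice of the invariant differentials `d z k`
and of the differentials of the second kind `d (∂ k (log θ 0))`, a basis of `H^1_dR (A / ℚ̄)`. -/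
def periods : Matrix (Fin (2 * g)) (Fin g ⊕ Fin g) ℂ := Matrix.of fun a i => A.dR i (Pi.single a 1)

/-- `P` is the matrix of the comparison isomorphism `H^1_dR → H^1_B` of `A` for some basis `R` of the rational homology, in
which the Riemann form has the matrix `H` up to a rational factor, and some basis of the de Rham cohomology over `ℚ̄`
(given by `T`). -/
def Presents (H : Matrix (Fin (2 * g)) (Fin (2 * g)) ℚ) (P : Matrix (Fin (2 * g)) (Fin (2 * g)) ℂ) : Prop :=
  ∃ (R : Matrix (Fin (2 * g)) (Fin (2 * g)) ℚ) (T : Matrix (Fin g ⊕ Fin g) (Fin (2 * g)) ℂ) (q : ℚ),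
    IsUnit R ∧ IsUnit P ∧ (∀ i j, IsAlgebraic ℚ (T i j)) ∧ q ≠ 0 ∧ P = toC R * periods A * T ∧
    ∀ a b, ∑ c, ∑ d, (R a c : ℂ) * riemannForm A.lam A.η (A.lam c) (A.lam d) * (R b d : ℂ) = (q : ℂ) * (H a b : ℂ)

end abelian

/-! ### Torsors -/

/-- `S` is (the set of complex points of) a `K`-subtorsor of `GL_B = Iso (M_dR, M_B)`: it is closed under `x y⁻¹ z`, and
it is defined in `GL_B` by polynomials with coefficients in `K`. -/
def IsSubtorsor (K : Subfield ℂ) {B : Type} [Fintype B] [DecidableEq B] (S : Set (Matrix B B ℂ)) : Prop :=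
  (∀ x ∈ S, ∀ y ∈ S, ∀ z ∈ S, x * y⁻¹ * z ∈ S) ∧ ∃ I : Set (MvPolynomial (B × B) K), ∀ x : Matrix B B ℂ, x ∈ S ↔
    IsUnit x ∧ ∀ p ∈ I, MvPolynomial.eval (fun b => x b.1 b.2) (MvPolynomial.map (algebraMap K ℂ) p) = 0

/-- The group of the torsor `S` on the Betti side, the set of the `x y⁻¹` with `x`, `y` in `S`, is defined over `ℚ`: it is
stable under all automorphisms of the field of complex numbers. -/
def RationalGroup {B : Type} [Fintype B] [DecidableEq B] (S : Set (Matrix B B ℂ)) : Prop :=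
  ∀ σ : ℂ ≃+* ℂ, ∀ x ∈ S, ∀ y ∈ S, ∃ x' ∈ S, ∃ y' ∈ S, (x * y⁻¹).map σ = x' * y'⁻¹

/-! ### Special abelian varieties -/

section centre
variable {n : ℕ}

/-- `x` is contained in a field of degree at most `D` over `ℚ` -/
def SmallDegree (D : ℕ) (x : ℂ) : Prop := ∃ K : Subfield ℂ, FiniteDimensional ℚ K ∧ Module.finrank ℚ K ≤ D ∧ x ∈ K

/-- the polarisation `H` is, on the de Rham side, given by a matrix `Q` with entries of degree at most `D`:
`C Q Cᵀ = 2 π i H` (`D = 1` for polarised abelian varieties over `ℚ` and bases of `H^1_dR` over `ℚ`) -/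
def Polarised (D : ℕ) (H : Matrix (Fin n) (Fin n) ℚ) (C : Matrix (Fin n) (Fin n) ℂ) : Prop :=
  ∃ Q : Matrix (Fin n) (Fin n) ℂ, (∀ i j, SmallDegree D (Q i j)) ∧ C * Q * Cᵀ = (2 * Real.pi * Complex.I : ℂ) • toC H

/-- The abelian variety is special over a field `K` of degree at most `D`: it has an endomorphism, given by a rational matrix
`α` on `H_1`, which is not a rational number and is defined over `K` on the de Rham side; or there is a `K`-subtorsor `S` of the
torsor of all isomorphisms from `H^1_dR` to `H^1_B` which contains the matrix `C` of the periods, whose group is defined over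
`ℚ`, and which is not stable under the symplectic group of `H`. -/
def Special (D : ℕ) (H : Matrix (Fin n) (Fin n) ℚ) (C : Matrix (Fin n) (Fin n) ℂ) : Prop :=
  ∃ K : Subfield ℂ, FiniteDimensional ℚ K ∧ Module.finrank ℚ K ≤ D ∧
    ((∃ α : Matrix (Fin n) (Fin n) ℚ, (∀ c : ℚ, α ≠ c • 1) ∧ ∀ i j, (C⁻¹ * toC α * C) i j ∈ K) ∨
    ∃ S : Set (Matrix (Fin n) (Fin n) ℂ), IsSubtorsor K S ∧ RationalGroup S ∧ C ∈ S ∧
      ∃ γ : Matrix (Fin n) (Fin n) ℂ, γ * toC H * γᵀ = toC H ∧ ∃ x ∈ S, γ * x ∉ S)

/-- **Big monodromy**: for each number `c`, the product of the symplectic Lie algebras of `H` (on the Betti side) for the `j`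
with `b_j = c` consists of infinitesimal symmetries of the restrictions of the matrices `C_j Z_j` with `b_j = c` to the lines
through `0` with directions `a_j`. It is sufficient that the monodromy group of the sum of these families on the lines
is Zariski dense in the product of the symplectic groups; there is no condition on points with different denominators. -/
def BigMonodromy {m N : ℕ} (H : Matrix (Fin n) (Fin n) ℚ) (C : Fin N → Matrix (Fin n) (Fin n) ℂ) (b : Fin N → ℕ)
    (a : Fin N → Fin m → ℤ) (Z : Fin N → Matrix (Fin n) (Fin n) (MvPowerSeries (Fin m) ℚ)) : Prop :=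
  ∀ X : Fin N → Matrix (Fin n) (Fin n) ℂ, (∀ j, X j * toC H + toC H * (X j)ᵀ = 0) → ∀ c : ℕ,
    Symmetry (fun j => if b j = c then onLine (a j) (Z j) else 1)
      (fun j => if b j = c then (C j)⁻¹ * X j * C j else 0)

end centre

/-! ### 1-motives -/

section motives

/-- The rows (Betti side): the `2g` cycles of `A`, lifted to `G`, the circles of the torus, and the paths from `0` to the
points of `G`. The columns (de Rham side) have the same indices. -/
abbrev Idx (g : ℕ) (R J : Type) : Type := (Fin (2 * g) ⊕ J) ⊕ R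

variable {g : ℕ} {R : Type} [Fintype R] [DecidableEq R] {J : Type} [Fintype J] [DecidableEq J]

/-- The block matrix `(X, z, 0; 0, μ, 0; Y, w, κ)`. -/
def block (X : Matrix (Fin (2 * g)) (Fin (2 * g)) ℂ) (z : Matrix (Fin (2 * g)) J ℂ) (μ : ℂ)
    (Y : Matrix R (Fin (2 * g)) ℂ) (w : Matrix R J ℂ) (κ : ℂ) : Matrix (Idx g R J) (Idx g R J) ℂ :=
  fromBlocks (fromBlocks X z 0 (μ • 1)) 0 (fromCols Y w) (κ • 1)

/-- The index set `Fin (2 * g)` of the de Rham basis of `A`: first the `g` differentials `d z_k` of the first kind, then the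
`g` differentials `d (∂_k log θ₀)` of the second kind. -/
def split (g : ℕ) : Fin (2 * g) ≃ Fin g ⊕ Fin g := (finCongr (two_mul g)).trans finSumFinEquiv.symm

variable (A : AbVar g)

/-- The period matrix of `A`. -/
def abelianPeriods : Matrix (Fin (2 * g)) (Fin (2 * g)) ℂ :=
  Matrix.of fun i j => Sum.elim (fun k => A.lam i k) (fun k => A.η i k) (split g j)

/-- The periods of the differentials of the third kind. -/
def thirdPeriods (q f : J → Fin g → ℂ) : Matrix (Fin (2 * g)) J ℂ :=
  Matrix.of fun i j => ∑ k, (f j k * A.lam i k - A.η i k * q j k)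

/-- The period matrix of `M`. -/
def periodMatrix (u e : R → Fin g → ℂ) (q f : J → Fin g → ℂ) (L : Matrix R J ℂ) : Matrix (Idx g R J) (Idx g R J) ℂ :=
  block (abelianPeriods A) (thirdPeriods A q f) (2 * Real.pi * Complex.I)
    (Matrix.of fun r j => Sum.elim (u r) (e r) (split g j)) L 1

/-- The Riemann form on `H_1(A, ℂ)`, in the basis `lam`. -/
def riemann (v w : Fin (2 * g) → ℂ) : ℂ :=
  ∑ a, ∑ b, v a * w b * ((∑ k, (A.η a k * A.lam b k - A.η b k * A.lam a k)) / (2 * Real.pi * Complex.I))

/-- The columns `γ ↦ ω(Z_j, γ)`, for the cycles `γ` of the basis. -/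
def columns (Z : J → Fin (2 * g) → ℂ) : Matrix (Fin (2 * g)) J ℂ := Matrix.of fun i j => riemann A (Z j) (Pi.single i 1)

/-- The lattice of periods of `A`. -/
def lattice : Submodule ℤ (Fin g → ℂ) := Submodule.span ℤ (Set.range A.lam)

/-- The inverse image in `ℂ^g` of `A(F)`. -/
def points (F : IntermediateField ℚ ℂ) : Set (Fin g → ℂ) := {z | ∃ i, A.θ i z ≠ 0 ∧ ∀ j, A.θ j z / A.θ i z ∈ F}

/-- `A`, with its embedding and its endomorphisms, is defined over the number field `F`. -/
structure DefinedOver (F : IntermediateField ℚ ℂ) : Prop where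
  numberField : FiniteDimensional ℚ F
  /-- the invariant differentials `d z_k` are defined over `F` -/
  differentials : ∀ k i j, ∃ a : Fin (A.N + 1) → Fin (A.N + 1) → ℂ, (∀ p q, a p q ∈ F) ∧
    ∀ z, A.θ i z * pd k (A.θ j) z - A.θ j z * pd k (A.θ i) z = ∑ p, ∑ q, a p q * (A.θ p z * A.θ q z)
  /-- the sum of two points over `F` is a point over `F` -/
  add : ∀ z ∈ points A F, ∀ w ∈ points A F, z + w ∈ points A F
  /-- the endomorphisms are defined over `F` -/
  endo : ∀ Q : (Fin g → ℂ) →ₗ[ℂ] (Fin g → ℂ), (∀ w ∈ lattice A, Q w ∈ lattice A) → ∀ z ∈ points A F, Q z ∈ points A F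
  /-- the endomorphisms (with matrix `m` for the basis `lam` of the lattice) act on the de Rham cohomology by matrices with
  algebraic entries -/
  deRham : ∀ (Q : (Fin g → ℂ) →ₗ[ℂ] (Fin g → ℂ)) (m : Matrix (Fin (2 * g)) (Fin (2 * g)) ℤ),
    (∀ j, Q (A.lam j) = ∑ i, (m j i : ℂ) • A.lam i) → ∃ b : Matrix (Fin (2 * g)) (Fin (2 * g)) ℂ,
      (∀ i j, IsAlgebraic ℚ (b i j)) ∧ m.map (Int.cast : ℤ → ℂ) * abelianPeriods A = abelianPeriods A * b

/-- The family `(Y, Z)` of elements of `H_1(A, ℂ)` satisfies all relations `∑ E_r Y_r + ∑ E'_j Z_j = 0` with `E_r, E'_j ∈ End A`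
and `∑ E_r P_r + ∑ E'_j Q_j = 0` (`m` are the matrices of the endomorphisms for the basis `lam` of the lattice). -/
def IsRelated (u : R → Fin g → ℂ) (q : J → Fin g → ℂ) (Y : R → Fin (2 * g) → ℂ) (Z : J → Fin (2 * g) → ℂ) : Prop :=
  ∀ (E : R ⊕ J → (Fin g → ℂ) →ₗ[ℂ] (Fin g → ℂ)) (m : R ⊕ J → Matrix (Fin (2 * g)) (Fin (2 * g)) ℤ),
    (∀ s j, E s (A.lam j) = ∑ i, (m s j i : ℂ) • A.lam i) → ∑ s, E s (Sum.elim u q s) ∈ lattice A →
      ∀ i, ∑ s, ∑ j, Sum.elim Y Z s j * (m s j i : ℂ) = 0

/-- The complex span of the commutators `ω(Z'_j, Y_r) - ω(Z_j, Y'_r)`, for rational families `(Y, Z)`, `(Y', Z')` which satisfy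
the relations. -/
def commutators (u : R → Fin g → ℂ) (q : J → Fin g → ℂ) : Submodule ℂ (Matrix R J ℂ) :=
  Submodule.span ℂ {c | ∃ (Y Y' : R → Fin (2 * g) → ℚ) (Z Z' : J → Fin (2 * g) → ℚ),
    IsRelated A u q (fun r a => Y r a) (fun j a => Z j a) ∧ IsRelated A u q (fun r a => Y' r a) (fun j a => Z' j a) ∧
    c = Matrix.of fun r j =>
      riemann A (fun a => Z' j a) (fun a => Y r a) - riemann A (fun a => Z j a) (fun a => Y' r a)}

/-- The coordinates in `H_1(A, ℂ)` of the vectors `(u_r, e_r)`: the rows `y_r` with `y_r (abelianPeriods A) = (u_r, e_r)`. -/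
def coordinates {S : Type} (u e : S → Fin g → ℂ) : S → Fin (2 * g) → ℂ :=
  fun r => (fun j => Sum.elim (u r) (e r) (split g j)) ᵥ* (abelianPeriods A)⁻¹

/-- The numbers `ℓ_{rj}`: the part of weight `-2` of the logarithm of the period matrix, times `2πi`. -/
def logarithm (u e : R → Fin g → ℂ) (q f : J → Fin g → ℂ) (L : Matrix R J ℂ) : Matrix R J ℂ :=
  Matrix.of fun r j => L r j - (1 / 2) * ∑ k, (f j k * u r k - e r k * q j k)

/-- The sum of the `χ_{rj} w_{rj}`. -/
def pairing (χ : Matrix R J ℤ) (w : Matrix R J ℂ) : ℂ := ∑ r, ∑ j, (χ r j : ℂ) * w r j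

/-- The integral matrices which are zero on the commutators. -/
def IsCentral (u : R → Fin g → ℂ) (q : J → Fin g → ℂ) (χ : Matrix R J ℤ) : Prop :=
  ∀ c ∈ commutators A u q, pairing χ c = 0

/-- The multilinear forms in `2m` variables in the rational homology. -/
abbrev Form (m : ℕ) : Type := MultilinearMap ℚ (fun _ : Fin m × Fin 2 => A.H1) ℚ

/-- `φ` is a de Rham-Betti class in `H^1(A) ^ {⊗ 2m} (m)`. -/
def IsDRB {m : ℕ} (φ : Form A m) : Prop :=
  IsDeRhamBettiForm QBar A.dR (2 * Real.pi * Complex.I) m φ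

/-- `φ` is a Hodge class in `H^1(A) ^ {⊗ 2m} (m)`. -/
def IsHodge {m : ℕ} (φ : Form A m) : Prop := IsHodgeTensor (A.per : A.H1 →+ (Fin g → ℂ)) φ

/-- The endomorphism `X` annihilates the form `φ` (as a derivation). -/
def Annihilates {m : ℕ} (X : Module.End ℚ A.H1) (φ : Form A m) : Prop :=
  ∀ v, ∑ k, φ (Function.update v k (X (v k))) = 0

/-- `X` is in the Lie algebra `𝔤`: it annihilates all classes that are Hodge classes and de Rham-Betti classes. -/
def InLie (X : Module.End ℚ A.H1) : Prop :=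
  ∀ (m : ℕ) (φ : Form A m), IsHodge A φ → IsDRB A φ → Annihilates A X φ

/-- The algebra of the endomorphisms of `H_1(A, ℂ)`, as matrices for the basis of the lattice (acting on columns). -/
abbrev EndC (_ : AbVar g) : Type := Matrix (Fin (2 * g)) (Fin (2 * g)) ℂ

/-- The matrix of the extension of an endomorphism of `H_1(A, ℚ)` to `H_1(A, ℂ)`. -/
def extend (X : Module.End ℚ A.H1) : EndC A := Matrix.of fun i j => (X (Pi.single j 1) i : ℂ)

/-- The complex Lie algebra `𝔤 ⊗ ℂ`, acting on `H_1(A, ℂ)`. -/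
def lieC : Submodule ℂ (EndC A) := Submodule.span ℂ {Y | ∃ X, InLie A X ∧ Y = extend A X}

/-- The Lie algebra given by a set `S` of pairs `(χ, n)`: all block matrices `(X, z, 0; 0, μ, 0; Y, w, 0)` such that the transpose
of `X` is in `μ / 2 + 𝔤 ⊗ ℂ`, `z` is `columns A Z`, `(Y, Z)` satisfies the relations and `∑ χ_{rj} w_{rj} = n μ` for all `(χ, n)`
in `S`. -/
def motivicLie (u : R → Fin g → ℂ) (q : J → Fin g → ℂ) (S : Set (Matrix R J ℤ × ℤ)) :
    Set (Matrix (Idx g R J) (Idx g R J) ℂ) :=
  {W | ∃ X Z μ Y w, Xᵀ - (μ / 2) • 1 ∈ lieC A ∧ IsRelated A u q Y Z ∧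
    (∀ s ∈ S, pairing s.1 w = s.2 * μ) ∧ W = block X (columns A Z) μ (Matrix.of Y) w 0}

/-- The data of a 1-motive over the field `F`: `A` and its endomorphisms are defined over the number field `F`, the `u r` and
`q j` are logarithms of points `P_r`, `Q_j` of `A(F)`, and the vectors `(u r, e r)`, `(q j, f j)` are normalised: they satisfy
the relations of the points. -/
structure IsOneMotive (F : IntermediateField ℚ ℂ) (u e : R → Fin g → ℂ) (q f : J → Fin g → ℂ) : Prop where
  definedOver : DefinedOver A F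
  path : ∀ r, u r ∈ points A F
  extension : ∀ j, q j ∈ points A F
  normalised : IsRelated A u q (coordinates A u e) (coordinates A q f)

/-- `b` is an invertible matrix of algebraic numbers, which respects the weights (the columns of degree zero are
combinations of columns of degree zero, the columns of `H^1(A)` are combinations of these and of the columns of degree
zero), and `b₁` is its part for `H^1(A)`: the columns of `periodMatrix * b` are the periods of another basis of the de Rham
realisation. -/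
def IsBasis {g : ℕ} {R J : Type} [Fintype R] [DecidableEq R] [Fintype J] [DecidableEq J]
    (b : Matrix (Idx g R J) (Idx g R J) ℂ) (b₁ : Matrix (Fin (2 * g)) (Fin (2 * g)) ℂ) : Prop :=
  IsUnit b ∧ (∀ i j, IsAlgebraic ℚ (b i j)) ∧ ∃ b₂ b₃ b₄ b₅ b₆, b = fromBlocks (fromBlocks b₁ b₂ 0 b₃) 0 (fromCols b₄ b₅) b₆

end motives

/-- `A` is isogenous over `K` to the product of the fibres with the period matrices `P (jj i)`, `i = 1, …, m`: in a
suitable rational basis of the homology (`R`) and a suitable basis over `K` of the de Rham cohomology (`U`, while `b₁` is the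
given basis over `K`) the period matrix of `A` is the block diagonal matrix with the blocks `P (jj i)`. -/
def IsProduct (K : Subfield ℂ) {g' n m N : ℕ} (A : AbVar g') (P : Fin N → Matrix (Fin n) (Fin n) ℂ) (jj : Fin m → Fin N)
    (b₁ : Matrix (Fin (2 * g')) (Fin (2 * g')) ℂ) : Prop :=
  ∃ (R : Matrix (Fin n × Fin m) (Fin (2 * g')) ℚ) (R' : Matrix (Fin (2 * g')) (Fin n × Fin m) ℚ)
    (U : Matrix (Fin (2 * g')) (Fin n × Fin m) ℂ) (U' : Matrix (Fin n × Fin m) (Fin (2 * g')) ℂ),
    R * R' = 1 ∧ R' * R = 1 ∧ U * U' = 1 ∧ U' * U = 1 ∧ (∀ i j, U i j ∈ K) ∧ (∀ i j, U' i j ∈ K) ∧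
    R.map (fun x : ℚ => (x : ℂ)) * (abelianPeriods A * b₁) * U = blockDiagonal fun i => P (jj i)

/-- The group of the matrices `x y⁻¹`, `x, y ∈ T`, is defined by polynomials with rational coefficients. -/
def GroupOverQ {B : Type} [Fintype B] [DecidableEq B] (T : Set (Matrix B B ℂ)) : Prop :=
  ∃ I : Set (MvPolynomial (B × B) ℂ), (∀ p ∈ I, ∀ m, ∃ q : ℚ, p.coeff m = q) ∧
    ∀ g : Matrix B B ℂ, (∃ x ∈ T, ∃ y ∈ T, g = x * y⁻¹) ↔ IsUnit g ∧
      ∀ p ∈ I, MvPolynomial.eval (fun b => g b.1 b.2) p = 0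

/-- The conclusion for one tuple of parameters; `P j` is the period matrix of the fibre. For all number fields `K` of degree
at most `D`, all 1-motives whose abelian part is isogenous over `K` to a product of the fibres (with repetitions, `jj`), and
all `K`-subtorsors `S` of `Iso (M_dR, M_B)` which contain the period matrix and whose group is defined over `ℚ`: -/
def Good (D : ℕ) {n N : ℕ} (P : Fin N → Matrix (Fin n) (Fin n) ℂ) : Prop :=
  ∀ K : Subfield ℂ, FiniteDimensional ℚ K → Module.finrank ℚ K ≤ D →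
  ∀ (g' m : ℕ) (jj : Fin m → Fin N) (A : AbVar g') (R J : Type) [Fintype R] [DecidableEq R] [Fintype J] [DecidableEq J]
    (b : Matrix (Idx g' R J) (Idx g' R J) ℂ) (b₁ : Matrix (Fin (2 * g')) (Fin (2 * g')) ℂ), IsBasis b b₁ →
    IsProduct K A P jj b₁ →
  ∀ (F : IntermediateField ℚ ℂ) (u e : R → Fin g' → ℂ) (q f : J → Fin g' → ℂ), IsOneMotive A F u e q f →
  ∀ (L : Matrix R J ℂ) (S : Set (Matrix (Idx g' R J) (Idx g' R J) ℂ)), IsSubtorsor K S → GroupOverQ S →
    periodMatrix A u e q f L * b ∈ S →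
    -- 1: arbitrary `L`
    (∀ W ∈ motivicLie A u q {s | IsCentral A u q s.1 ∧
        IsAlgebraic ℚ (pairing s.1 (logarithm u e q f L) - (s.2 : ℂ) * (2 * Real.pi * Complex.I))},
      ∀ x ∈ S, NormedSpace.exp W * x ∈ S) ∧
    -- 2: the 1-motives over the algebraic numbers
    ((∀ χ, IsCentral A u q χ → IsAlgebraic ℚ (Complex.exp (pairing χ (logarithm u e q f L)))) →
      ∀ W ∈ motivicLie A u q {s | IsCentral A u q s.1 ∧
        pairing s.1 (logarithm u e q f L) = (s.2 : ℂ) * (2 * Real.pi * Complex.I)},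
      ∀ x ∈ S, NormedSpace.exp W * x ∈ S)

/-! ### Auxiliary lemmas -/

theorem base_of {m n q : ℕ} {B : ℝ} (hB : 1 ≤ B) {T : MvPolynomial (Fin m) ℤ}
    {A : Fin m → Fin n → Fin n → MvPolynomial (Fin m) ℤ} {Z W : Matrix (Fin n) (Fin n) (MvPowerSeries (Fin m) ℚ)}
    (h : Family q B T A Z W) :
    Pool.Agent.H885.GBaseU (N := 1) q B T (fun _ => A) (fun _ => Z) (fun _ => W) :=
  ⟨hB, h.degT, h.sizeT, fun _ => h.degA, fun _ => h.sizeA, fun _ => h.ode, fun _ => h.inv, fun _ => h.size, fun k => by
    obtain ⟨d, h1, h2, h3⟩ := h.den k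
    exact ⟨d, h1, h2, fun _ => h3⟩⟩

theorem sym_inf {m n N : ℕ} {Z : Fin N → Matrix (Fin n) (Fin n) (MvPowerSeries (Fin m) ℚ)} {a : Fin N → Fin m → ℤ}
    {b : Fin N → ℕ} {β : ℕ} {X : Fin N → Matrix (Fin n) (Fin n) ℂ}
    (h : Symmetry (fun j => if b j = β then onLine (a j) (Z j) else 1) (fun j => if b j = β then X j else 0)) :
    Pool.Agent.H885.InfT (Pool.Agent.H885.part b (fun j => Pool.Agent.H885.lineM (a j) (Z j)) β)
      (fun j => if b j = β then X j else 0) := by
  have h1 : Pool.Agent.H885.cent (Pool.Agent.H885.part b (fun j => Pool.Agent.H885.lineM (a j) (Z j)) β) =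
      fun σ : Fin N × Fin n × Fin n => (if b σ.1 = β then onLine (a σ.1) (Z σ.1) else 1) σ.2.1 σ.2.2 := by
    funext σ
    unfold Pool.Agent.H885.cent Pool.Agent.H885.part
    by_cases hb : b σ.1 = β
    · rw [if_pos hb, if_pos hb]
      rfl
    · rw [if_neg hb, if_neg hb, Matrix.one_apply, Matrix.one_apply]
      split_ifs
      · exact map_one _
      · exact map_zero _
  intro R hR
  rw [h1] at hR ⊢
  refine Eq.trans ?_ (h R hR)
  refine Finset.sum_congr rfl fun σ _ => ?_
  rw [Matrix.mul_apply]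
  rfl

theorem map_eq {n : ℕ} (M : Matrix (Fin n) (Fin n) ℚ) : toC M = Pool.Agent.Y119.HY.cm M := by
  ext i j
  rw [Pool.Agent.Y119.HY.cm_apply]
  rfl

theorem pres_of {g : ℕ} {A : AbVar g} {H : Matrix (Fin (2 * g)) (Fin (2 * g)) ℚ}
    {P : Matrix (Fin (2 * g)) (Fin (2 * g)) ℂ} (h : Presents A H P) : ∃ R, Pool.Agent.H936.SL.Pres A H P R := by
  obtain ⟨R, T, q, hR, hP, hT, hq, hPT, hE⟩ := h
  set e := Pool.Agent.R917.eqv g with he
  set Ts : Matrix (Fin (2 * g)) (Fin (2 * g)) ℂ := T.submatrix e.symm id with hTs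
  have h1 : P = Pool.Agent.Y119.HY.cm R * Pool.Agent.R917.PM A * Ts := by
    rw [hPT, map_eq, Matrix.mul_assoc, Matrix.mul_assoc]
    congr 1
    ext a b
    rw [Matrix.mul_apply, Matrix.mul_apply, ← Equiv.sum_comp e]
    refine Finset.sum_congr rfl fun i _ => ?_
    rw [Pool.Agent.R917.PM_apply, hTs, Matrix.submatrix_apply, Equiv.symm_apply_apply]
    rfl
  have h2 : IsUnit Ts.det := by
    have h3 := (Matrix.isUnit_iff_isUnit_det _).1 hP
    rw [h1, Matrix.det_mul] at h3
    exact isUnit_of_mul_isUnit_right h3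
  refine ⟨R, Ts, Ts⁻¹, q, (Matrix.isUnit_iff_isUnit_det _).1 hR, Matrix.mul_nonsing_inv _ h2, fun i j => hT _ _, hq, h1, ?_⟩
  ext a b
  have h3 := hE a b
  have h4 : ∀ c d, riemannForm A.lam A.η (A.lam c) (A.lam d) = ((Pool.Agent.H936.SL.EM A c d : ℚ) : ℂ) := by
    intro c d
    have h5 := A.rf_eq (Pi.single c 1) (Pi.single d 1)
    have h6 : ∀ c : Fin (2 * g), A.per (Pi.single c 1) = A.lam c := by
      intro c
      have h7 := A.per_bas c
      have h8 : A.bas c = Pi.single c 1 := Pi.basisFun_apply ℚ (Fin (2 * g)) c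
      rwa [h8] at h7
    rw [h6, h6] at h5
    exact h5
  simp only [h4] at h3
  have h5 : (((R * Pool.Agent.H936.SL.EM A * Rᵀ) a b : ℚ) : ℂ) = ((q * H a b : ℚ) : ℂ) := by
    push_cast
    rw [← h3, Matrix.mul_apply]
    push_cast
    rw [Finset.sum_comm]
    refine Finset.sum_congr rfl fun d _ => ?_
    rw [Matrix.mul_apply, Matrix.transpose_apply]
    push_cast
    rw [Finset.sum_mul]
  rw [Matrix.smul_apply, smul_eq_mul]
  exact_mod_cast h5

theorem ctr_of {g D : ℕ} {H : Matrix (Fin (2 * g)) (Fin (2 * g)) ℚ} {C : Matrix (Fin (2 * g)) (Fin (2 * g)) ℂ}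
    (hHu : IsUnit H) (hH : Hᵀ = -H) (hC : IsUnit C) (hP : Polarised D H C) :
    Pool.Agent.H936.V.Ctr (2 * Real.pi * Complex.I : ℂ) D H C := by
  obtain ⟨Q, hQ, hQ'⟩ := hP
  rw [map_eq] at hQ'
  exact ⟨hH, (Matrix.isUnit_iff_isUnit_det _).1 hHu, (Matrix.isUnit_iff_isUnit_det _).1 hC, Q, hQ, hQ'⟩

/-- special abelian varieties -/
theorem special_of {g D : ℕ} (hg : 0 < g) {A₀ : AbVar g} {H : Matrix (Fin (2 * g)) (Fin (2 * g)) ℚ}
    {C : Matrix (Fin (2 * g)) (Fin (2 * g)) ℂ} (hA : Presents A₀ H C) (hHu : IsUnit H) (hH : Hᵀ = -H) (hC : IsUnit C)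
    (h : Special D H C) : Pool.Agent.H936.V.SpecialC D H C := by
  have hd := (Matrix.isUnit_iff_isUnit_det _).1 hHu
  have hC' := (Matrix.isUnit_iff_isUnit_det _).1 hC
  obtain ⟨R, hp⟩ := pres_of hA
  obtain ⟨K, hK, hD, h⟩ := h
  have hKalg : ∀ x ∈ K, IsAlgebraic ℚ x := by
    intro x hx
    have : NumberField K := { to_charZero := inferInstance, to_finiteDimensional := hK }
    have h6 : IsAlgebraic ℚ (⟨x, hx⟩ : K) := Algebra.IsAlgebraic.isAlgebraic _
    exact h6.algebraMap (A := ℂ)
  rcases h with ⟨α, hα, ha⟩ | ⟨S, hS, hSr, hm, γ, hγ, x, hx, hx'⟩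
  · simp only [map_eq] at ha
    obtain ⟨S, hS⟩ := Pool.Agent.H936.V.spc_of_mat hg hp hH hd hC' hKalg hα ha
    exact ⟨A₀, R, K, S, hK, hD, hS⟩
  · have hHc := Pool.Agent.H936.G.cm_unit hd
    have hHct : (Pool.Agent.Y119.HY.cm H)ᵀ = -Pool.Agent.Y119.HY.cm H := by
      rw [← Pool.Agent.Y119.HY.cm_transpose, hH, Pool.Agent.Y119.HY.cm_neg]
    obtain ⟨u, hu, hu'⟩ := Pool.Agent.Y123.GN.quot_GB (X := 1) (Y := γ) (μ := 1)
      (B := Pool.Agent.Y119.HY.cm H) (Q := Pool.Agent.Y119.HY.cm H) one_ne_zero isUnit_one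
      (by rw [Matrix.one_mul, Matrix.transpose_one, Matrix.mul_one, one_smul])
      (by rw [one_smul, ← map_eq]; exact hγ) (Or.inl ⟨(Matrix.isUnit_iff_isUnit_det _).2 hHc, hHct⟩)
    refine ⟨A₀, R, K, S, hK, hD, hKalg, Pool.Agent.Y123.ST.subT_iff.1 hS, hSr, hm, hp, u, hu, x, hx, ?_⟩
    rw [Matrix.mul_one] at hu'
    rw [hu']
    exact hx'

section
variable {g : ℕ} {R : Type} [Fintype R] [DecidableEq R] {J : Type} [Fintype J] [DecidableEq J] (A : AbVar g)

theorem entry_eq (a b : Fin (2 * g)) : (∑ k, (A.η a k * A.lam b k - A.η b k * A.lam a k)) / (2 * Real.pi * Complex.I) =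
    ((A.om (A.bas a) (A.bas b) : ℚ) : ℂ) := by
  rw [A.om_pairing]
  simp only [A.eta_bas, A.per_bas]

theorem columns_eq (Z : J → Fin (2 * g) → ℂ) :
    columns A Z = Pool.Agent.X306.AV.tz A (Matrix.of fun j a => Z j a) := by
  ext i j
  change ∑ a, ∑ b, Z j a * (Pi.single i 1 : Fin (2 * g) → ℂ) b * _ = ∑ a, Z j a * ((A.om (A.bas a) (A.bas i) : ℚ) : ℂ)
  refine Finset.sum_congr rfl fun a _ => ?_
  rw [Finset.sum_eq_single i]
  · rw [Pi.single_eq_same, mul_one, entry_eq]
  · intro b _ hb
    rw [Pi.single_eq_of_ne hb, mul_zero, zero_mul]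
  · intro h
    exact absurd (Finset.mem_univ _) h

theorem riemann_rat (v w : Fin (2 * g) → ℚ) :
    riemann A (fun a => (v a : ℂ)) (fun a => (w a : ℂ)) = ((A.om v w : ℚ) : ℂ) := by
  unfold riemann
  have h1 : ∀ w : Fin (2 * g) → ℚ, w = ∑ a, w a • A.bas a := by
    intro w
    conv_lhs => rw [← A.bas.sum_repr w]
    rfl
  have h2 : A.om v w = ∑ a, ∑ b, v a * (w b * A.om (A.bas a) (A.bas b)) := by
    conv_lhs => rw [h1 v]
    rw [map_sum, LinearMap.sum_apply]
    refine Finset.sum_congr rfl fun a _ => ?_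
    rw [map_smul, LinearMap.smul_apply]
    conv_lhs => rw [h1 w]
    rw [map_sum, smul_eq_mul, Finset.mul_sum]
    refine Finset.sum_congr rfl fun b _ => ?_
    rw [map_smul, smul_eq_mul]
  rw [h2, Rat.cast_sum]
  refine Finset.sum_congr rfl fun a _ => ?_
  rw [Rat.cast_sum]
  refine Finset.sum_congr rfl fun b _ => ?_
  rw [entry_eq, Rat.cast_mul, Rat.cast_mul]
  ring

theorem rel_iff (u : R → Fin g → ℂ) (q : J → Fin g → ℂ) (Y : R → Fin (2 * g) → ℂ) (Z : J → Fin (2 * g) → ℂ) :
    IsRelated A u q Y Z ↔ Pool.Agent.X306.AV.RelN A u q (Sum.elim Y Z) := Iff.rfl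

theorem commutators_eq (u : R → Fin g → ℂ) (q : J → Fin g → ℂ) :
    commutators A u q = Pool.Agent.X306.AV.CmS A u q := by
  have hcast : ∀ (Y : R → Fin (2 * g) → ℚ) (Z : J → Fin (2 * g) → ℚ),
      (Sum.elim (fun r a => ((Y r a : ℚ) : ℂ)) (fun j a => ((Z j a : ℚ) : ℂ)) : R ⊕ J → Fin (2 * g) → ℂ) =
      fun s a => ((Sum.elim Y Z s a : ℚ) : ℂ) := by
    intro Y Z
    funext s a
    rcases s with s | s <;> rfl
  unfold commutators Pool.Agent.X306.AV.CmS
  congr 1
  ext c
  constructor
  · rintro ⟨Y, Y', Z, Z', h, h', rfl⟩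
    refine ⟨Sum.elim Y Z, Sum.elim Y' Z', ?_, ?_, ?_⟩
    · rw [← hcast]
      exact h
    · rw [← hcast]
      exact h'
    · ext r j
      change riemann A _ _ - riemann A _ _ = ((A.om (Z' j) (Y r) - A.om (Z j) (Y' r) : ℚ) : ℂ)
      rw [riemann_rat, riemann_rat, Rat.cast_sub]
  · rintro ⟨N, N', h, h', rfl⟩
    refine ⟨fun r => N (Sum.inl r), fun r => N' (Sum.inl r), fun j => N (Sum.inr j), fun j => N' (Sum.inr j), ?_, ?_, ?_⟩
    · rw [rel_iff, hcast]
      refine (congrArg (Pool.Agent.X306.AV.RelN A u q) ?_).mp h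
      funext s a
      rcases s with s | s <;> rfl
    · rw [rel_iff, hcast]
      refine (congrArg (Pool.Agent.X306.AV.RelN A u q) ?_).mp h'
      funext s a
      rcases s with s | s <;> rfl
    · ext r j
      change ((A.om (N' (Sum.inr j)) (N (Sum.inl r)) - A.om (N (Sum.inr j)) (N' (Sum.inl r)) : ℚ) : ℂ) =
        riemann A _ _ - riemann A _ _
      rw [riemann_rat, riemann_rat, Rat.cast_sub]

theorem PA_eq : abelianPeriods A = Pool.Agent.X306.AV.PA A := by
  ext i j
  change Sum.elim (fun k => A.lam i k) (fun k => A.η i k) (split g j) = A.dR (split g j) (A.bas i)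
  rcases split g j with k | k
  · change A.lam i k = A.per (A.bas i) k
    rw [A.per_bas]
  · change A.η i k = A.eta (A.bas i) k
    rw [A.eta_bas]

theorem coordinates_eq (u e : R → Fin g → ℂ) (q f : J → Fin g → ℂ) :
    Sum.elim (coordinates A u e) (coordinates A q f) = Pool.Agent.X306.AV.Nm A u e q f := by
  funext s
  rcases s with r | j
  · change (fun j => Sum.elim (u r) (e r) (split g j)) ᵥ* (abelianPeriods A)⁻¹ = _
    rw [PA_eq]
    rfl
  · change (fun i => Sum.elim (q j) (f j) (split g i)) ᵥ* (abelianPeriods A)⁻¹ = _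
    rw [PA_eq]
    rfl

theorem logarithm_eq (u e : R → Fin g → ℂ) (q f : J → Fin g → ℂ) (L : Matrix R J ℂ) :
    logarithm u e q f L = Pool.Agent.X306.AV.ell A u e q f L := by
  have h1 : (2 * Real.pi * Complex.I : ℂ) • (Pool.Agent.X306.AV.yM (Pool.Agent.X306.AV.Nm A u e q f) *
      Pool.Agent.X306.AV.tz A (Pool.Agent.X306.AV.zM (Pool.Agent.X306.AV.Nm A u e q f))) =
      (Matrix.of fun r s => Pool.Agent.X306.AV.UU (u r) (e r) ((Pool.Agent.X306.AV.eqv g).symm s)) *
        Pool.Agent.X306.AV.sw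
          (Matrix.of fun j s => Pool.Agent.X306.AV.UU (q j) (f j) ((Pool.Agent.X306.AV.eqv g).symm s)) := by
    rw [← Pool.Agent.X306.AV.yM_PA (A := A) (q := q) (f := f), ← Pool.Agent.X306.AV.zM_PA (A := A) (u := u) (e := e),
      Matrix.mul_assoc, Pool.Agent.X306.AV.PA_sw, Matrix.mul_smul]
  ext r j
  have h2 := congrFun (congrFun h1 r) j
  rw [Matrix.smul_apply, smul_eq_mul, Matrix.mul_apply (M := Matrix.of fun r s => Pool.Agent.X306.AV.UU (u r) (e r)
    ((Pool.Agent.X306.AV.eqv g).symm s)), Pool.Agent.X306.AV.sum_eqv] at h2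
  have h3 : ∑ k, (f j k * u r k - e r k * q j k) = ∑ k, (Matrix.of fun r s => Pool.Agent.X306.AV.UU (u r) (e r)
      ((Pool.Agent.X306.AV.eqv g).symm s)) r (Pool.Agent.X306.AV.eqv g (Sum.inl k)) * Pool.Agent.X306.AV.sw
      (Matrix.of fun j s => Pool.Agent.X306.AV.UU (q j) (f j) ((Pool.Agent.X306.AV.eqv g).symm s))
        (Pool.Agent.X306.AV.eqv g (Sum.inl k)) j + ∑ k, (Matrix.of fun r s => Pool.Agent.X306.AV.UU (u r) (e r)
      ((Pool.Agent.X306.AV.eqv g).symm s)) r (Pool.Agent.X306.AV.eqv g (Sum.inr k)) * Pool.Agent.X306.AV.sw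
      (Matrix.of fun j s => Pool.Agent.X306.AV.UU (q j) (f j) ((Pool.Agent.X306.AV.eqv g).symm s))
        (Pool.Agent.X306.AV.eqv g (Sum.inr k)) j := by
    rw [← Finset.sum_add_distrib]
    refine Finset.sum_congr rfl fun k _ => ?_
    simp only [Pool.Agent.X306.AV.sw, Matrix.of_apply, Equiv.symm_apply_apply, Sum.elim_inl, Sum.elim_inr,
      Pool.Agent.X306.AV.UU]
    ring
  change L r j - (1 / 2) * ∑ k, (f j k * u r k - e r k * q j k) = L r j - ((2 * Real.pi * Complex.I) / 2) * _
  rw [h3, ← h2]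
  ring

theorem third_eq (q f : J → Fin g → ℂ) : thirdPeriods A q f = Pool.Agent.X306.AV.PA A * Pool.Agent.X306.AV.sw
      (Matrix.of fun j s => Pool.Agent.X306.AV.UU (q j) (f j) ((Pool.Agent.X306.AV.eqv g).symm s)) := by
  ext i j
  rw [Matrix.mul_apply, Pool.Agent.X306.AV.sum_eqv]
  change ∑ k, (f j k * A.lam i k - A.η i k * q j k) =
    ∑ k, Pool.Agent.X306.AV.PA A i (Pool.Agent.X306.AV.eqv g (Sum.inl k)) * Sum.elim
      (fun k => Pool.Agent.X306.AV.UU (q j) (f j) ((Pool.Agent.X306.AV.eqv g).symm (Pool.Agent.X306.AV.eqv g (Sum.inr k))))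
      (fun k => -Pool.Agent.X306.AV.UU (q j) (f j) ((Pool.Agent.X306.AV.eqv g).symm (Pool.Agent.X306.AV.eqv g (Sum.inl k))))
      ((Pool.Agent.X306.AV.eqv g).symm (Pool.Agent.X306.AV.eqv g (Sum.inl k))) +
    ∑ k, Pool.Agent.X306.AV.PA A i (Pool.Agent.X306.AV.eqv g (Sum.inr k)) * Sum.elim
      (fun k => Pool.Agent.X306.AV.UU (q j) (f j) ((Pool.Agent.X306.AV.eqv g).symm (Pool.Agent.X306.AV.eqv g (Sum.inr k))))
      (fun k => -Pool.Agent.X306.AV.UU (q j) (f j) ((Pool.Agent.X306.AV.eqv g).symm (Pool.Agent.X306.AV.eqv g (Sum.inl k))))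
      ((Pool.Agent.X306.AV.eqv g).symm (Pool.Agent.X306.AV.eqv g (Sum.inr k)))
  simp only [Equiv.symm_apply_apply, Sum.elim_inl, Sum.elim_inr, Pool.Agent.X306.AV.PA_inl,
    Pool.Agent.X306.AV.PA_inr, A.per_bas, A.eta_bas, Pool.Agent.X306.AV.UU]
  rw [← Finset.sum_add_distrib]
  refine Finset.sum_congr rfl fun k _ => ?_
  ring

theorem period_eq (u e : R → Fin g → ℂ) (q f : J → Fin g → ℂ) (L : Matrix R J ℂ) :
    periodMatrix A u e q f L = Pool.Agent.X306.AV.sm (Pool.Agent.X306.AV.prS u e q f L A) 1 := by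
  have hblock : ∀ X z μ Y w κ, block (g := g) (R := R) (J := J) X z μ Y w κ =
      Pool.Agent.X306.AV.sm (X, z, μ, Y, w) κ := fun X z μ Y w κ => rfl
  unfold periodMatrix
  rw [hblock, PA_eq, third_eq]
  rfl

end

/-- from the Lie algebras to the torsors -/
theorem good_of {g N : ℕ} (hg : 2 ≤ g) {H : Matrix (Fin (2 * g)) (Fin (2 * g)) ℚ} (hHu : IsUnit H) (hHt : Hᵀ = -H) {D : ℕ}
    {P : Fin N → Matrix (Fin (2 * g)) (Fin (2 * g)) ℂ} (hpres : ∀ j, ∃ A : AbVar g, Presents A H (P j))
    (hV : ∀ K : Subfield ℂ, FiniteDimensional ℚ K → Module.finrank ℚ K ≤ D →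
      ∀ V : Submodule ℂ (Matrix (Pool.Agent.Helper880_R3.Ix 1 (2 * g) N) (Pool.Agent.Helper880_R3.Ix 1 (2 * g) N) ℂ),
      Pool.Agent.H936.W.Sp K (Pool.Agent.Y119.HY.cm H⁻¹)
        (Pool.Agent.Helper880_R3.Tot ((2 * Real.pi * Complex.I : ℂ) • (1 : Matrix (Fin 1) (Fin 1) ℂ)) P) V →
      ∀ i, ∀ X ∈ Pool.Agent.Helper880_LF.spS (Pool.Agent.Y119.HY.cm H⁻¹),
        Pool.Agent.Helper880_R3.ib (r₀ := 1) i X ∈ V) : Good D P := by
  intro K hK hKD g' m jj A R J _ _ _ _ b b₁ hb hprod F u e q f hM L S hS hG hc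
  have hHd : IsUnit H.det := (Matrix.isUnit_iff_isUnit_det _).1 hHu
  have hS' := Pool.Agent.Y123.ST.subT_iff.1 hS
  have hKalg : ∀ x ∈ K, IsAlgebraic ℚ x := by
    intro x hx
    have : NumberField K := { to_charZero := inferInstance, to_finiteDimensional := hK }
    have h6 : IsAlgebraic ℚ (⟨x, hx⟩ : K) := Algebra.IsAlgebraic.isAlgebraic _
    exact h6.algebraMap (A := ℂ)
  have hG' : Pool.Agent.X306.RL.GDef Pool.Agent.X306.EM.QQ S := by
    obtain ⟨I, hI1, hI2⟩ := hG
    exact ⟨I, fun p hp m => by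
      obtain ⟨q, hq⟩ := hI1 p hp m
      exact Pool.Agent.X306.EM.mem_QQ.2 ⟨q, hq.symm⟩, hI2⟩
  have hn' : Pool.Agent.X306.AV.RelN A u q (Pool.Agent.X306.AV.Nm A u e q f) := by
    rw [← coordinates_eq]
    exact (rel_iff A u q _ _).1 hM.normalised
  have hF := hM.definedOver
  have hE : Pool.Agent.X306.AV.EndAlg A := by
    rintro m ⟨Q, hQ⟩
    obtain ⟨b, hb, h1⟩ := hF.deRham Q m hQ
    rw [PA_eq] at h1
    exact ⟨b, hb, h1⟩
  have hF' : Pool.Agent.X306.AV.Fld A F := ⟨hF.numberField, hF.differentials, hF.add, hF.endo⟩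
  have hp : ∀ j, ∃ (A : AbVar g) (R : Matrix (Fin (2 * g)) (Fin (2 * g)) ℚ), Pool.Agent.H936.SL.Pres A H (P j) R := by
    intro j
    obtain ⟨A, hA⟩ := hpres j
    obtain ⟨R, hR⟩ := pres_of hA
    exact ⟨A, R, hR⟩
  obtain ⟨hbu, hba, b₂, b₃, b₄, b₅, b₆, hbb⟩ := hb
  have hbu' : IsUnit (Pool.Agent.H936.W.bl b₁ b₂ b₃ b₄ b₅ b₆).det := by
    have h1 := (Matrix.isUnit_iff_isUnit_det _).1 hbu
    rw [hbb] at h1
    exact h1
  have hba' : ∀ i j, IsAlgebraic ℚ (Pool.Agent.H936.W.bl b₁ b₂ b₃ b₄ b₅ b₆ i j) := by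
    intro i j
    have h1 := hba i j
    rw [hbb] at h1
    exact h1
  have hc' : Pool.Agent.X306.AV.sm (Pool.Agent.X306.AV.prS u e q f L A) 1 *
      Pool.Agent.H936.W.bl b₁ b₂ b₃ b₄ b₅ b₆ ∈ S := by
    rw [period_eq, hbb] at hc
    exact hc
  obtain ⟨R₁, R₁', U, U', h1, h2, h3, h4, h5, h6, h7⟩ := hprod
  have hPD : Pool.Agent.H936.W.PD K A H P jj R₁ R₁' U U' b₁ :=
    { md :=
        { r1 := h1
          r2 := h2
          u1 := h3
          u2 := h4
          uK := h5
          uK' := h6
          pu := fun j => by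
            obtain ⟨A, hA⟩ := hpres j
            obtain ⟨-, -, -, -, hA, -⟩ := hA
            exact (Matrix.isUnit_iff_isUnit_det _).1 hA
          eq := by
            rw [← PA_eq]
            exact h7 }
      alg := hKalg
      b1 := by
        rw [show (Pool.Agent.H936.W.bl b₁ b₂ b₃ b₄ b₅ b₆).det = _ from Matrix.det_fromBlocks_zero₁₂ _ _ _,
          Matrix.det_fromBlocks_zero₂₁] at hbu'
        exact isUnit_of_mul_isUnit_left (isUnit_of_mul_isUnit_left hbu')
      b1a := fun i j => hba' (Sum.inl (Sum.inl i)) (Sum.inl (Sum.inl j))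
      leg := fun j => by
        obtain ⟨A, R, hR⟩ := hp j
        obtain ⟨B, q, hB, hq, hl⟩ := hR.leg
        exact ⟨B, q, hB, hq, hl⟩
      det := hHd }
  have main : ∀ W ∈ motivicLie A u q {s | IsCentral A u q s.1 ∧
        IsAlgebraic ℚ (pairing s.1 (logarithm u e q f L) - (s.2 : ℂ) * (2 * Real.pi * Complex.I))},
      ∀ x ∈ S, NormedSpace.exp W * x ∈ S := by
    rintro _ ⟨X, Z, μ, Y, w, hX, hYZ, hw, rfl⟩ x hx
    have hX' : X - (μ / 2) • 1 ∈ Submodule.span ℂ {Y | ∃ P ∈ A.NA, Y = Pool.Agent.X306.AV.mt P} := by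
      refine Pool.Agent.X306.AV.span_of_transpose ?_
      rw [Matrix.transpose_sub, Matrix.transpose_smul, Matrix.transpose_one]
      exact hX
    have h1 := Pool.Agent.H936.W.om_exp hPD hS' hG' hbu' hba' hc' hF' hM.path hM.extension hE hn' hHt (by omega) hp
      (hV K hK hKD) (X := X) (μ := μ) hX' ((rel_iff A u q Y Z).1 hYZ) (w := w) (fun χ h1 n h2 => by
        refine hw (χ, n) ⟨fun c hc' => h1 c (by rwa [commutators_eq] at hc'), ?_⟩
        rw [logarithm_eq A]
        exact h2) hx
    have hblock : ∀ X z μ Y w κ, block (g := g') (R := R) (J := J) X z μ Y w κ =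
      Pool.Agent.X306.AV.sm (X, z, μ, Y, w) κ := fun X z μ Y w κ => rfl
    rw [hblock, columns_eq]
    exact h1
  refine ⟨main, ?_⟩
  rintro halg _ ⟨X, Z, μ, Y, w, hX, hYZ, hw, rfl⟩ x hx
  refine main _ ⟨X, Z, μ, Y, w, hX, hYZ, fun s hs => hw s ⟨hs.1, ?_⟩, rfl⟩ x hx
  have h1 : Complex.exp (pairing s.1 (logarithm u e q f L) - (s.2 : ℂ) * (2 * Real.pi * Complex.I)) =
      Complex.exp (pairing s.1 (logarithm u e q f L)) := by
    rw [Complex.exp_sub, Complex.exp_int_mul_two_pi_mul_I, div_one]
  by_contra hne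
  refine Pool.Agent.H340R2.LW.transcendental_cexp _ hs.2 (sub_ne_zero.2 hne) ?_
  rw [h1]
  exact halg s.1 hs.1

/-- **The theorem.** -/
theorem result (g m N q D : ℕ) (hg : 2 ≤ g) :
    ∃ E : ℕ, ∀ (B : ℝ) (h w b₀ : ℕ), 1 ≤ B → (2 * B * ((h : ℝ) + w + 2)) ^ E ≤ (b₀ : ℝ) →
    -- the special abelian varieties
    ∀ (H : Matrix (Fin (2 * g)) (Fin (2 * g)) ℚ) (C : Fin N → Matrix (Fin (2 * g)) (Fin (2 * g)) ℂ),
    IsUnit H → Hᵀ = -H → (∀ j, IsUnit (C j) ∧ Polarised D H (C j) ∧ (∃ A₀ : AbVar g, Presents A₀ H (C j)) ∧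
      Special D H (C j)) →
    -- the families and the points
    ∀ (T : Fin N → MvPolynomial (Fin m) ℤ) (A : Fin N → Fin m → Fin (2 * g) → Fin (2 * g) → MvPolynomial (Fin m) ℤ)
      (Z W : Fin N → Matrix (Fin (2 * g)) (Fin (2 * g)) (MvPowerSeries (Fin m) ℚ)),
      (∀ j, Family q B (T j) (A j) (Z j) (W j)) →
    ∀ (a : Fin N → Fin m → ℤ) (b : Fin N → ℕ), (∀ j i, |a j i| ≤ h) → (∀ j, restrict (a j) (toQ (T j)) ≠ 0) →
      InWindow m B h w b₀ b → BigMonodromy H C b a Z →
      (∀ j, ∃ A : AbVar g, Presents A H (C j * value (Z j) (a j) (b j))) →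
    -- the conclusion holds for all 1-motives over products of the fibres
    Good D fun j => C j * value (Z j) (a j) (b j) := by
  have hθ : (2 * Real.pi * Complex.I : ℂ) ≠ 0 := Complex.two_pi_I_ne_zero
  obtain ⟨E, hE⟩ := Pool.Agent.H936.X.finV hg hθ m N q D
  refine ⟨E, fun B h w b₀ hB hbig H C hHu hHt hcen T A Z W hF a b ha hTa hb hI hpres => ?_⟩
  refine good_of hg hHu hHt hpres fun K hK hKD V hV => ?_
  refine hE B h w b₀ hB hbig H ⟨b, C, T, A, Z, W, a, K, V⟩ ?_
  have hHd := (Matrix.isUnit_iff_isUnit_det _).1 hHu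
  exact
    { skew := hHt
      hd := hHd
      b_mem := hb.1
      sep := hb.2
      ctr := fun j => ctr_of hHu hHt (hcen j).1 (hcen j).2.1
      spc := fun j => by
        obtain ⟨h1, -, ⟨A₀, hA₀⟩, h2⟩ := hcen j
        exact special_of (by omega) hA₀ hHu hHt h1 h2
      base := fun j => base_of hB (hF j)
      ha := ha
      line := hTa
      inf := fun X hX β => by
        refine sym_inf (X := fun j => (C j)⁻¹ * X j * C j) (hI X (fun j => ?_) β)
        have h1 := hX j
        rw [← Pool.Agent.H936.SL.cm_inv hHd, ← Pool.Agent.H936.SL.lieB_eq (Pool.Agent.H936.G.cm_unit hHd),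
          Pool.Agent.Helper880_R3.mem_lieB] at h1
        rw [map_eq]
        exact h1.2
      fd := hK
      deg := hKD
      sp := hV
      pres := fun j => by
        obtain ⟨A, hA⟩ := hpres j
        obtain ⟨R, hR⟩ := pres_of hA
        exact ⟨A, R, hR⟩ }

end Pool.Agent.Results.MP_ae0f86_nt.OneMotivesNearSpecial
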